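import Pool.Agent.Lib.MP_c7af3c_ag.LINES.H46.Quasi
import Pool.Agent.Lib.MP_c7af3c_ag.LINES.H19.MainT2
import Pool.Agent.Lib.MP_c7af3c_ag.LINES.H19.NoLine
import Pool.Agent.Lib.MP_c7af3c_ag.ELL.All

/-!
# MP_c7af3c_ag: the closed subschemes of very general complete intersections
-/

set_option autoImplicit false

namespace Pool.Agent.Lines.H46

open AlgebraicGeometry CategoryTheory CategoryTheory.Limits
open MvPolynomial (homogeneousSubmodule)
open Pool.Agent.Gen Pool.Agent.GenY.H46 Pool.Agent.Sharp Pool.Agent.Sharp.H54 Pool.Agent.Lines.H19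
open Pool.Agent.Ell (ngl nah)

section

attribute [local instance] MvPolynomial.gradedAlgebra

/-- `Y` contains a line -/
def HasLine {k : Type} [Field k] {n : ℕ} {Y : Scheme.{0}} (i : Y ⟶ Ell.PP k n) : Prop :=
  ∃ a b : Fin (n + 1) → k, LinearIndependent k ![a, b] ∧
    ∀ g : MvPolynomial (Fin (n + 1)) k, (∃ e, g.IsHomogeneous e) →
      (∀ y : Y, g ∈ (i.base y).asHomogeneousIdeal) →
      ∀ s t : k, MvPolynomial.eval (fun l => s * a l + t * b l) g = 0

theorem eval_lineP {k : Type} [Field k] {n : ℕ} (g : MvPolynomial (Fin (n + 1)) k)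
    (a b : Fin (n + 1) → k) (t : k) :
    (lineP g a b).eval t = MvPolynomial.eval (fun l => a l + t * b l) g := by
  unfold lineP
  rw [MvPolynomial.aeval_def, ← Polynomial.coe_evalRingHom, MvPolynomial.eval₂_comp_left]
  have h1 : (Polynomial.evalRingHom t).comp (algebraMap k (Polynomial k)) = RingHom.id k := by
    ext c
    simp
  rw [h1, MvPolynomial.eval₂_id]
  congr 2
  funext l
  change Polynomial.eval t (Polynomial.C (a l) + Polynomial.X * Polynomial.C (b l)) = _
  rw [Polynomial.eval_add, Polynomial.eval_mul, Polynomial.eval_C, Polynomial.eval_C,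
    Polynomial.eval_X]

theorem lineP_zero {k : Type} [Field k] [Infinite k] {n : ℕ} (g : MvPolynomial (Fin (n + 1)) k)
    (e : ℕ) (hg : g.IsHomogeneous e) (a b : Fin (n + 1) → k) (h : lineP g a b = 0) (s t : k) :
    MvPolynomial.eval (fun l => s * a l + t * b l) g = 0 := by
  have h1 : ∀ s : k, s ≠ 0 → MvPolynomial.eval (fun l => s * a l + t * b l) g = 0 := by
    intro s hs
    have h2 := eval_lineP g a b (s⁻¹ * t)
    rw [h, Polynomial.eval_zero] at h2
    have h4 : (fun l => s * a l + t * b l) = fun l => s * (a l + s⁻¹ * t * b l) := by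
      funext l
      field_simp
    have h5 : MvPolynomial.eval (fun l => s * (a l + s⁻¹ * t * b l)) g =
        s ^ e * MvPolynomial.eval (fun l => a l + s⁻¹ * t * b l) g := by
      rw [MvPolynomial.eval_eq, MvPolynomial.eval_eq, Finset.mul_sum]
      refine Finset.sum_congr rfl fun I hI => ?_
      have h6 := hg (MvPolynomial.mem_support_iff.1 hI)
      rw [Finset.prod_congr rfl fun l _ => mul_pow s (a l + s⁻¹ * t * b l) (I l),
        Finset.prod_mul_distrib, Finset.prod_pow_eq_pow_sum]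
      have h7 : ∑ l ∈ I.support, I l = e := by
        rw [← h6, Finsupp.weight_apply, Finsupp.sum]
        simp
      rw [h7]
      ring
    rw [h4, h5, ← h2, mul_zero]
  -- the polynomial in `s`
  let q : Polynomial k := MvPolynomial.aeval
    (fun l => Polynomial.X * Polynomial.C (a l) + Polynomial.C (t * b l)) g
  have hq : ∀ s, q.eval s = MvPolynomial.eval (fun l => s * a l + t * b l) g := by
    intro s
    change (Polynomial.evalRingHom s) (MvPolynomial.aeval _ g) = _
    rw [MvPolynomial.aeval_def, MvPolynomial.eval₂_comp_left]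
    have h1 : (Polynomial.evalRingHom s).comp (algebraMap k (Polynomial k)) = RingHom.id k := by
      ext c
      simp
    rw [h1, MvPolynomial.eval₂_id]
    congr 2
    funext l
    change Polynomial.eval s (Polynomial.X * Polynomial.C (a l) + Polynomial.C (t * b l)) = _
    rw [Polynomial.eval_add, Polynomial.eval_mul, Polynomial.eval_C, Polynomial.eval_C,
      Polynomial.eval_X]
  have hq0 : q = 0 := by
    refine Polynomial.eq_zero_of_infinite_isRoot q ?_
    refine Set.Infinite.mono (s := {0}ᶜ) ?_ (Set.finite_singleton (0 : k)).infinite_compl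
    intro s hs
    change q.eval s = 0
    rw [hq s]
    exact h1 s hs
  rw [← hq s, hq0, Polynomial.eval_zero]

/-- finiteness for closed subschemes without lines -/
theorem finSol_closed (k : Type) [Field k] [IsAlgClosed k] [CharZero k]
    (n c : ℕ) (d : Fin c → ℕ) (F : Fin c → MvPolynomial (Fin (n + 1)) k)
    (hF : ∀ m, (F m).IsHomogeneous (d m))
    (ha : AlgebraicIndependent ℤ (fun s : Ix (M := n) d => MvPolynomial.coeff s.1.2 (F s.1.1)))
    (hd : ∀ m, 1 ≤ d m) (e : ℕ) (h1 : 2 * n + 1 ≤ c + ∑ m, d m + e)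
    (h2 : 2 * e + 1 + c ≤ n)
    (P : Set (MvPolynomial (Fin (n + 1)) k)) (hFP : Set.range F ⊆ P)
    (hP : ∀ g ∈ P, ∃ e, g.IsHomogeneous e)
    (hno : ∀ x y : Fin (n + 1) → k, LinearIndependent k ![x, y] → ∃ g ∈ P, lineP g x y ≠ 0)
    (K' : Type) [Field K'] [IsAlgClosed K'] [Algebra k K'] :
    FinSol K' n (MvPolynomial.map (algebraMap k K') '' P) := by
  have : CharZero K' := charZero_of_injective_algebraMap (algebraMap k K').injective
  refine finSolP2 d K' (fun m => MvPolynomial.map (algebraMap k K') (F m))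
    (fun m => (hF m).map _) ?_ hd e h1 h2 (MvPolynomial.map (algebraMap k K') '' P) ?_ ?_ ?_
  · have h1 : (fun s : Ix (M := n) d =>
        MvPolynomial.coeff s.1.2 (MvPolynomial.map (algebraMap k K') (F s.1.1))) =
        (algebraMap k K').toIntAlgHom ∘
          (fun s : Ix (M := n) d => MvPolynomial.coeff s.1.2 (F s.1.1)) := by
      funext s
      rw [MvPolynomial.coeff_map]
      rfl
    rw [h1]
    exact ha.map' (f := (algebraMap k K').toIntAlgHom) (algebraMap k K').injective
  · rintro _ ⟨m, rfl⟩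
    exact ⟨F m, hFP ⟨m, rfl⟩, rfl⟩
  · rintro _ ⟨g, hg, rfl⟩
    obtain ⟨e', he'⟩ := hP g hg
    exact ⟨e', he'.map _⟩
  · intro x y hxy
    by_contra hcon
    push Not at hcon
    obtain ⟨u, v, huv, h0⟩ := line_descent k K' P hP x y hxy
      (fun g hg => hcon _ ⟨g, hg, rfl⟩)
    obtain ⟨g, hg, hg0⟩ := hno u v huv
    exact hg0 (h0 g hg)

theorem mainClosed (k : Type) [Field k] [IsAlgClosed k] [CharZero k]
    (n c : ℕ) (d : Fin c → ℕ) (F : Fin c → MvPolynomial (Fin (n + 1)) k)
    (hF : ∀ m, (F m).IsHomogeneous (d m))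
    (ha : AlgebraicIndependent ℤ (fun s : Ix (M := n) d => MvPolynomial.coeff s.1.2 (F s.1.1)))
    (hd : ∀ m, 1 ≤ d m) (e : ℕ) (h1 : 2 * n + 1 ≤ c + ∑ m, d m + e)
    (h2 : 2 * e + 1 + c ≤ n)
    (Y : Over (Spec (CommRingCat.of k))) (i : Y.left ⟶ Ell.PP k n) (hi : IsClosedImmersion i)
    (hiY : i ≫ projStr k n = Y.hom)
    (hFY : ∀ m, ∀ y : Y.left, F m ∈ (i.base y).asHomogeneousIdeal) :
    (IsGL k Y ↔ IsAH k Y) ∧ (IsGL k Y ↔ ¬ HasLine i) ∧
    (2 * n ≤ c + ∑ m, d m + 1 → ¬ HasLine i) ∧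
    (IsGL k Y → ∀ (X : Over (Spec (CommRingCat.of k))) (f : X ⟶ Y),
      LocallyOfFiniteType X.hom → QuasiCompact X.hom →
      (∀ y : Spec (CommRingCat.of k) ⟶ Y.left,
        {x : Spec (CommRingCat.of k) ⟶ X.left | x ≫ X.hom = 𝟙 _ ∧ x ≫ f.left = y}.Finite) →
      IsGL k X ∧ IsAH k X) := by
  have hk : Infinite k := IsAlgClosed.instInfinite
  set P : Set (MvPolynomial (Fin (n + 1)) k) := {g | (∃ e, g.IsHomogeneous e) ∧
    ∀ y : Y.left, g ∈ (i.base y).asHomogeneousIdeal} with hP
  have hgl : HasLine i → ¬ IsGL k Y := by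
    rintro ⟨a, b, hab, h⟩
    exact ngl k n Y i hi hiY a b hab h
  have hah : HasLine i → ¬ IsAH k Y := by
    rintro ⟨a, b, hab, h⟩
    exact nah k n Y i hi hiY a b hab h
  have key : ¬ HasLine i → ∀ (X : Over (Spec (CommRingCat.of k))) (f : X ⟶ Y),
      LocallyOfFiniteType X.hom → QuasiCompact X.hom →
      (∀ y : Spec (CommRingCat.of k) ⟶ Y.left,
        {x : Spec (CommRingCat.of k) ⟶ X.left | x ≫ X.hom = 𝟙 _ ∧ x ≫ f.left = y}.Finite) →
      IsGL k X ∧ IsAH k X := by
    intro hno X f hX1 hX2 hfib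
    have hno' : ∀ x y : Fin (n + 1) → k, LinearIndependent k ![x, y] →
        ∃ g ∈ P, lineP g x y ≠ 0 := by
      intro x y hxy
      by_contra hcon
      push Not at hcon
      refine hno ⟨x, y, hxy, fun g hg hgY s t => ?_⟩
      obtain ⟨e', he'⟩ := hg
      exact lineP_zero g e' he' x y (hcon g ⟨⟨e', he'⟩, hgY⟩) s t
    have hw : (f.left ≫ i) ≫ projStr k n = X.hom := by
      rw [Category.assoc, hiY]
      exact Over.w f
    refine quasi k n P (fun g hg => hg.1) (fun K' _ _ _ => finSol_closed k n c d F hF ha hd e h1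
      h2 P ?_ (fun g hg => hg.1) hno' K') X hX1 hX2 (f.left ≫ i) hw (fun Q => ?_) ?_
    · rintro _ ⟨m, rfl⟩
      exact ⟨⟨d m, hF m⟩, hFY m⟩
    · by_cases hne : {x : Spec (CommRingCat.of k) ⟶ X.left |
          x ≫ X.hom = 𝟙 _ ∧ x ≫ f.left ≫ i = Q}.Nonempty
      · obtain ⟨x0, -, hx0⟩ := hne
        refine (hfib (x0 ≫ f.left)).subset ?_
        rintro x ⟨hx1, hx2⟩
        refine ⟨hx1, ?_⟩
        rw [← cancel_mono i, Category.assoc, Category.assoc, hx2, hx0]
      · rw [Set.not_nonempty_iff_eq_empty.1 hne]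
        exact Set.finite_empty
    · rintro g ⟨-, hg⟩ x
      exact hg (f.left.base x)
  have hself : ¬ HasLine i → IsGL k Y ∧ IsAH k Y := by
    intro hno
    have hlft : LocallyOfFiniteType Y.hom := by
      rw [← hiY]
      infer_instance
    have hqc : QuasiCompact Y.hom := by
      rw [← hiY]
      have h3 : QuasiCompact (projStr k n) := (Pool.Agent.Ell.H30.pft k n).2.2
      infer_instance
    refine key hno Y (𝟙 Y) hlft hqc fun y => ?_
    refine (Set.finite_singleton y).subset ?_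
    rintro x ⟨-, hx⟩
    have h3 : x ≫ (𝟙 Y : Y ⟶ Y).left = x := Category.comp_id x
    rw [h3] at hx
    exact hx
  refine ⟨⟨fun h => ?_, fun h => ?_⟩, ⟨fun h h' => hgl h' h, fun h => (hself h).1⟩, fun h => ?_,
    fun h => ?_⟩
  · by_contra hc
    exact hc (hself fun hl => hgl hl h).2
  · exact (hself fun hl => hah hl h).1
  · rintro ⟨a, b, hab, hl⟩
    obtain ⟨m, hm⟩ := noLine k n c d F hF ha h a b hab
    apply hm
    refine Polynomial.eq_zero_of_infinite_isRoot _ ?_
    refine Set.infinite_univ.mono fun t _ => ?_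
    change (lineP (F m) a b).eval t = 0
    rw [eval_lineP]
    have h3 := hl (F m) ⟨d m, hF m⟩ (hFY m) 1 t
    simpa only [one_mul] using h3
  · exact key fun hl => hgl hl h

end

end Pool.Agent.Lines.H46
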