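import Pool.Agent.Lib.MP_c7af3c_ag.MET.Y.MainM
import Pool.Agent.Lib.MP_c7af3c_ag.GEN.H70.Gproj
import Pool.Agent.Lib.MP_c7af3c_ag.YY.H46.Sch

/-!
# MP_c7af3c_ag, project LINES: schemes quasi-finite over a closed subset of projective space with
finitely many points over finitely generated fields
-/

set_option autoImplicit false

namespace Pool.Agent.Lines.H46

open AlgebraicGeometry CategoryTheory CategoryTheory.Limits
open MvPolynomial (homogeneousSubmodule)
open Pool.Agent.Gen Pool.Agent.Met.Y Pool.Agent.GenY.H46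

/-- a section is zero at no point where it is invertible -/
theorem kval_ne {K' : Type} [Field K'] {Y : Scheme.{0}} (y : Spec (CommRingCat.of K') ⟶ Y)
    (U : Y.Opens) (h : ⊤ ≤ y ⁻¹ᵁ U) (s : Γ(Y, U))
    (hs : ∀ a, y.base a ∈ Y.basicOpen s) : kval y U h s ≠ 0 := by
  have h1 : ⊤ ≤ y ⁻¹ᵁ Y.basicOpen s := fun a _ => hs a
  rw [← H96.kval_res y U (Y.basicOpen s) (Y.basicOpen_le s) h1 h s]
  have h2 : IsUnit ((Y.presheaf.map (homOfLE (Y.basicOpen_le s)).op).hom s) :=
    RingedSpace.isUnit_res_basicOpen Y.toRingedSpace s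
  have h3 := h2.map (H96.kvalHom y (Y.basicOpen s) h1)
  exact h3.ne_zero

section

variable {k : Type} [Field k] {n : ℕ}

/-- the equations of the chart -/
def EQ (P : Set (MvPolynomial (Fin (n + 1)) k)) (p : ∀ _ : Fin 1, Fin (n + 1)) :
    Set (MvPolynomial (Sg (fun _ : Fin 1 => n) ⊕ Fin 0) k) :=
  {q | q = MvPolynomial.X (Sum.inl ⟨0, p 0⟩) - 1 ∨
    ∃ g ∈ P, q = MvPolynomial.rename (fun l => Sum.inl ⟨0, l⟩) g}

theorem finSolM_of {K' : Type} [Field K'] (f : k →+* K') (P : Set (MvPolynomial (Fin (n + 1)) k))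
    (hL : FinSol K' n (MvPolynomial.map f '' P)) (p : ∀ _ : Fin 1, Fin (n + 1)) :
    FinSolM K' (Sg (fun _ : Fin 1 => n) ⊕ Fin 0) (MvPolynomial.map f '' EQ P p) := by
  intro S hS
  let φ : (Sg (fun _ : Fin 1 => n) ⊕ Fin 0 → K') → (Fin (n + 1) → K') :=
    fun z l => z (Sum.inl ⟨0, l⟩)
  have hφ : Function.Injective φ := by
    intro z z' h
    funext s
    rcases s with ⟨i, l⟩ | s
    · obtain rfl : i = 0 := Subsingleton.elim _ _
      exact congrFun h l
    · exact s.elim0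
  refine Set.Finite.of_finite_image (f := φ) ((hL S hS (p 0)).subset ?_) hφ.injOn
  rintro _ ⟨z, ⟨hz1, hz2⟩, rfl⟩
  refine ⟨?_, fun l => hz1 _, ?_⟩
  · have h1 := hz2 _ ⟨_, Or.inl rfl, rfl⟩
    rw [map_sub, MvPolynomial.map_X, map_one, map_sub, MvPolynomial.eval_X, map_one,
      sub_eq_zero] at h1
    exact h1
  · rintro _ ⟨g, hg, rfl⟩
    have h1 := hz2 _ ⟨_, Or.inr ⟨g, hg, rfl⟩, rfl⟩
    rw [MvPolynomial.map_rename, MvPolynomial.eval_rename] at h1
    exact h1

variable [inst : GradedAlgebra (homogeneousSubmodule (Fin (n + 1)) k)]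

/-- the value at a point is zero -/
theorem value_zero (X : Over (Spec (CommRingCat.of k)))
    (f : X.left ⟶ Proj (homogeneousSubmodule (Fin (n + 1)) k)) (hf : f ≫ projStr k n = X.hom)
    (p : ∀ _ : Fin 1, Fin (n + 1)) (g : MvPolynomial (Fin (n + 1)) k) (e : ℕ)
    (hg : g.IsHomogeneous e) (hv : ∀ x : X.left, g ∈ (f.base x).asHomogeneousIdeal)
    (y : Fin 0 → Γ(X.left, chart (fun _ : Fin 1 => n) (fun _ => f) p))
    (K' : Type) [Field K'] [Algebra k K'] (z : Spec (CommRingCat.of K') ⟶ X.left)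
    (hzX : z ≫ X.hom = Spec.map (CommRingCat.ofHom (algebraMap k K')))
    (hzU : ⊤ ≤ z ⁻¹ᵁ chart (fun _ : Fin 1 => n) (fun _ => f) p) :
    kval z _ hzU (MvPolynomial.eval₂
      (cstR X.hom (chart (fun _ : Fin 1 => n) (fun _ => f) p))
      (Sum.elim (crd (fun _ : Fin 1 => n) (fun _ => f) p) y)
      (MvPolynomial.rename (fun l => Sum.inl ⟨0, l⟩) g)) = 0 := by
  rw [kval_eval z _ hzU X.hom hzX, MvPolynomial.map_rename, MvPolynomial.eval_rename]
  have hfU : ⊤ ≤ (z ≫ f) ⁻¹ᵁ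
      Proj.basicOpen (homogeneousSubmodule (Fin (n + 1)) k) (MvPolynomial.X (p 0)) :=
    fun a ha => chart_le (fun _ : Fin 1 => n) (fun _ => f) p 0 (hzU ha)
  have h1 : ((fun j => kval z _ hzU
      (Sum.elim (crd (fun _ : Fin 1 => n) (fun _ => f) p) y j)) ∘
      fun l => Sum.inl ⟨0, l⟩) = pcoordE k n (p 0) (z ≫ f) hfU := by
    funext l
    exact kval_crd (fun _ : Fin 1 => n) (fun _ => f) z p hzU ⟨0, l⟩ hfU
  rw [h1, MvPolynomial.eval_map, ← MvPolynomial.aeval_def]
  refine (H70.gproj k n K').zero (p 0) (z ≫ f) hfU ?_ e g hg fun a => ?_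
  · rw [Category.assoc, hf, hzX]
  · exact hv (z.base a)

/-- the residue field -/
theorem exists_pt (X : Over (Spec (CommRingCat.of k))) (x : X.left) :
    ∃ (K' : Type) (_ : Field K') (_ : Algebra k K') (z : Spec (CommRingCat.of K') ⟶ X.left),
      z ≫ X.hom = Spec.map (CommRingCat.ofHom (algebraMap k K')) ∧ ∀ a, z.base a = x := by
  refine ⟨X.left.residueField x, inferInstance,
    (Spec.preimage (X.left.fromSpecResidueField x ≫ X.hom)).hom.toAlgebra,
    X.left.fromSpecResidueField x, ?_, fun a => Scheme.fromSpecResidueField_apply x a⟩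
  exact (Spec.map_preimage (X.left.fromSpecResidueField x ≫ X.hom)).symm

theorem value_bot (X : Over (Spec (CommRingCat.of k)))
    (f : X.left ⟶ Proj (homogeneousSubmodule (Fin (n + 1)) k)) (hf : f ≫ projStr k n = X.hom)
    (p : ∀ _ : Fin 1, Fin (n + 1)) (g : MvPolynomial (Fin (n + 1)) k) (e : ℕ)
    (hg : g.IsHomogeneous e) (hv : ∀ x : X.left, g ∈ (f.base x).asHomogeneousIdeal)
    (y : Fin 0 → Γ(X.left, chart (fun _ : Fin 1 => n) (fun _ => f) p)) :
    X.left.basicOpen (MvPolynomial.eval₂ (cstR X.hom (chart (fun _ : Fin 1 => n) (fun _ => f) p))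
      (Sum.elim (crd (fun _ : Fin 1 => n) (fun _ => f) p) y)
      (MvPolynomial.rename (fun l => Sum.inl ⟨0, l⟩) g)) = ⊥ := by
  have key := value_zero X f hf p g e hg hv y
  generalize (MvPolynomial.eval₂ (cstR X.hom (chart (fun _ : Fin 1 => n) (fun _ => f) p))
      (Sum.elim (crd (fun _ : Fin 1 => n) (fun _ => f) p) y)
      (MvPolynomial.rename (fun l => Sum.inl ⟨0, l⟩) g)) = s at key ⊢
  generalize chart (fun _ : Fin 1 => n) (fun _ => f) p = U at s key ⊢
  rw [eq_bot_iff]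
  intro x hx
  exfalso
  obtain ⟨K', _, _, z, hzX, hz⟩ := exists_pt X x
  have hzU : ⊤ ≤ z ⁻¹ᵁ U := fun a _ => by
    change z.base a ∈ U
    rw [hz a]
    exact X.left.basicOpen_le _ hx
  exact kval_ne z U hzU s (fun a => by rw [hz a]; exact hx) (key K' z hzX hzU)

theorem quasi (k : Type) [Field k] [IsAlgClosed k] [CharZero k] (n : ℕ)
    [inst : GradedAlgebra (homogeneousSubmodule (Fin (n + 1)) k)]
    (P : Set (MvPolynomial (Fin (n + 1)) k)) (hP : ∀ g ∈ P, ∃ e, g.IsHomogeneous e)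
    (hL : ∀ (K' : Type) [Field K'] [IsAlgClosed K'] [Algebra k K'],
      FinSol K' n (MvPolynomial.map (algebraMap k K') '' P))
    (X : Over (Spec (CommRingCat.of k))) (hX1 : LocallyOfFiniteType X.hom)
    (hX2 : QuasiCompact X.hom)
    (f : X.left ⟶ Proj (homogeneousSubmodule (Fin (n + 1)) k)) (hf : f ≫ projStr k n = X.hom)
    (hfib : ∀ Q : Spec (CommRingCat.of k) ⟶ Proj (homogeneousSubmodule (Fin (n + 1)) k),
      {x : Spec (CommRingCat.of k) ⟶ X.left | x ≫ X.hom = 𝟙 _ ∧ x ≫ f = Q}.Finite)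
    (hv : ∀ g ∈ P, ∀ x : X.left, g ∈ (f.base x).asHomogeneousIdeal) :
    IsGL k X ∧ IsAH k X := by
  have hover : Over1 (fun _ : Fin 1 => n) 0 (EQ P) X := by
    refine ⟨fun _ => inst, fun _ => f, fun _ => hf, fun Q => ?_, fun p => ⟨Fin.elim0, ?_⟩⟩
    · refine (hfib (Q 0)).subset ?_
      rintro x ⟨h1, h2⟩
      exact ⟨h1, h2 0⟩
    · rintro q (rfl | ⟨g, hg, rfl⟩)
      · rw [MvPolynomial.eval₂_sub, MvPolynomial.eval₂_X, MvPolynomial.eval₂_one, Sum.elim_inl,
          crd_self, sub_self]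
        exact Scheme.basicOpen_zero _ _
      · obtain ⟨e, he⟩ := hP g hg
        exact value_bot X f hf p g e he (hv g hg) _
  constructor
  · exact grplM k 1 (fun _ => n) 0 (EQ P)
      (fun K' _ _ _ p => finSolM_of (algebraMap k K') P (hL K') p) X hX1 hX2 hover
  · refine H81.sfinM k 1 (fun _ => n) 0 (EQ P) (fun p => ?_) X hX1 hX2 hover
    have h1 := finSolM_of (algebraMap k k) P (hL k) p
    have h2 : (MvPolynomial.map (algebraMap k k) :
        MvPolynomial (Sg (fun _ : Fin 1 => n) ⊕ Fin 0) k →+*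
          MvPolynomial (Sg (fun _ : Fin 1 => n) ⊕ Fin 0) k) = RingHom.id _ := by
      refine RingHom.ext fun q => ?_
      rw [Algebra.algebraMap_self, MvPolynomial.map_id]
      rfl
    rw [h2] at h1
    have h3 : (RingHom.id (MvPolynomial (Sg (fun _ : Fin 1 => n) ⊕ Fin 0) k)) '' EQ P p =
        EQ P p := Set.image_id _
    rwa [h3] at h1

end

end Pool.Agent.Lines.H46
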